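import Pool.Agent.H62.Weak4
import Pool.Agent.H62.Weak5

set_option autoImplicit false

namespace Pool.Agent.Results.MP_5885b3_lc.Q2Both
open H62.Weak

theorem result :
    (¬∃ T : L2.Theory, T.Finite ∧ ∀ (A : Type) [Nonempty A] (comp imp : A → A → A),
      Models comp imp T ↔ ∃ (X : Type) (_ : PartialOrder X), RepOn comp imp X) ∧
    ∃ (A : Type) (_ : Finite A) (comp imp : A → A → A),
      (∃ (X : Type) (_ : PartialOrder X), RepOn comp imp X) ∧
        ∀ (X : Type) [PartialOrder X] [Finite X], ¬RepOn comp imp X :=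
  ⟨not_fin, Pt.no_frp⟩

end Pool.Agent.Results.MP_5885b3_lc.Q2Both
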